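import Pool.Agent.H30.FA.TA

/-!
# STE, auxiliary lemmas: isometries, sums, constants
-/

set_option autoImplicit false

open Pool.Agent.H30.FA

namespace Pool.Agent.H4.FA

noncomputable section

/-! ## Isometries -/

section iso

variable {E : Type} [NormedAddCommGroup E] [InnerProductSpace ℂ E]

theorem pow_app (g : E ≃ₗᵢ[ℂ] E) (n : ℕ) (x : E) : (g ^ (n + 1)) x = g ((g ^ n) x) := by
  rw [pow_succ']
  rfl

theorem pow_turn (g : E ≃ₗᵢ[ℂ] E) {c : ℂ} (hc : ‖c‖ = 1) {h : E} {ε : ℝ}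
    (hg : ‖g h - c • h‖ ≤ ε) (n : ℕ) : ‖(g ^ n) h - c ^ n • h‖ ≤ n * ε := by
  induction n with
  | zero =>
    rw [pow_zero, pow_zero, one_smul]
    change ‖h - h‖ ≤ _
    rw [sub_self, norm_zero, Nat.cast_zero, zero_mul]
  | succ n ih =>
    have h1 : (g ^ (n + 1)) h - c ^ (n + 1) • h =
        g ((g ^ n) h - c ^ n • h) + c ^ n • (g h - c • h) := by
      rw [pow_app, map_sub, map_smul, smul_sub, smul_smul, ← pow_succ]
      abel
    rw [h1]
    refine (norm_add_le _ _).trans ?_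
    rw [g.norm_map, norm_smul, norm_pow, hc, one_pow, one_mul]
    push_cast
    linarith

theorem inner_sub_app (G : E ≃ₗᵢ[ℂ] E) (c : ℂ) (h X : E) :
    inner ℂ (c • h) (G X) - inner ℂ h X = inner ℂ (c • h - G h) (G X) := by
  rw [inner_sub_left, G.inner_map_map]

/-- the overlap with a vector which is turned -/
theorem ov_low (G : E ≃ₗᵢ[ℂ] E) {c : ℂ} (hc : ‖c‖ = 1) (h X : E) (hX : ‖X‖ = 1) :
    ‖inner ℂ h X‖ - ‖G h - c • h‖ ≤ ‖inner ℂ h (G X)‖ := by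
  have h1 := inner_sub_app G c h X
  have h2 : ‖inner ℂ (c • h) (G X)‖ = ‖inner ℂ h (G X)‖ := by
    rw [inner_smul_left, norm_mul, RCLike.norm_conj, hc, one_mul]
  have h3 : ‖inner ℂ (c • h) (G X) - inner ℂ h X‖ ≤ ‖G h - c • h‖ := by
    rw [h1]
    refine (norm_inner_le_norm _ _).trans ?_
    rw [G.norm_map, hX, mul_one, norm_sub_rev]
  have h4 := norm_sub_norm_le (inner ℂ h X) (inner ℂ (c • h) (G X))
  rw [norm_sub_rev, h2] at h4
  linarith

/-- the change of the overlap with a nearly fixed vector -/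
theorem ov_step (G : E ≃ₗᵢ[ℂ] E) (h X : E) (hX : ‖X‖ = 1) :
    ‖inner ℂ h (G X) - inner ℂ h X‖ ≤ ‖G h - h‖ := by
  have h1 := inner_sub_app G 1 h X
  rw [one_smul] at h1
  rw [h1]
  refine (norm_inner_le_norm _ _).trans ?_
  rw [G.norm_map, hX, mul_one, norm_sub_rev]

theorem inner_le_one {a b : E} (ha : ‖a‖ = 1) (hb : ‖b‖ = 1) : ‖inner ℂ a b‖ ≤ 1 := by
  have h1 := norm_inner_le_norm (𝕜 := ℂ) a b
  rw [ha, hb, mul_one] at h1
  exact h1

/-- the product whose phase is followed -/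
theorem rp_step (G : E ≃ₗᵢ[ℂ] E) {c : ℂ} (hc : ‖c‖ = 1) {h h' X Y : E} (hh : ‖h‖ = 1)
    (hh' : ‖h'‖ = 1) (hX : ‖X‖ = 1) (hY : ‖Y‖ = 1) {η : ℝ} (h1 : ‖G h - h‖ ≤ η)
    (h2 : ‖G h' - c • h'‖ ≤ η) : ‖Rp h h' (G X) (G Y) - c⁻¹ * Rp h h' X Y‖ ≤ 2 * η := by
  have hc0 : c ≠ 0 := by
    intro h0
    rw [h0, norm_zero] at hc
    exact zero_ne_one hc
  have hci : ‖c⁻¹‖ = 1 := by rw [norm_inv, hc, inv_one]
  have e1 : ‖inner ℂ h (G X) - inner ℂ h X‖ ≤ η := (ov_step G h X hX).trans h1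
  have e2 : ‖inner ℂ (G Y) h' - c⁻¹ * inner ℂ Y h'‖ ≤ η := by
    have e3 : inner ℂ (G Y) h' - c⁻¹ * inner ℂ Y h' =
        c⁻¹ * inner ℂ (G Y) (c • h' - G h') := by
      rw [inner_sub_right, G.inner_map_map, inner_smul_right, mul_sub, ← mul_assoc,
        inv_mul_cancel₀ hc0, one_mul]
    rw [e3, norm_mul, hci, one_mul]
    refine (norm_inner_le_norm _ _).trans ?_
    rw [G.norm_map, hY, one_mul, norm_sub_rev]
    exact h2
  have e4 : Rp h h' (G X) (G Y) - c⁻¹ * Rp h h' X Y =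
      (inner ℂ h (G X) - inner ℂ h X) * inner ℂ X Y * inner ℂ (G Y) h' +
        inner ℂ h X * inner ℂ X Y * (inner ℂ (G Y) h' - c⁻¹ * inner ℂ Y h') := by
    unfold Rp
    rw [G.inner_map_map]
    ring
  rw [e4]
  refine (norm_add_le _ _).trans ?_
  rw [norm_mul, norm_mul, norm_mul, norm_mul]
  have f1 := inner_le_one hX hY
  have f2 : ‖inner ℂ (G Y) h'‖ ≤ 1 := inner_le_one (by rw [G.norm_map, hY]) hh'
  have f3 := inner_le_one hh hX
  have hη : 0 ≤ η := (norm_nonneg _).trans h1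
  have g1 : ‖inner ℂ h (G X) - inner ℂ h X‖ * ‖inner ℂ X Y‖ * ‖inner ℂ (G Y) h'‖ ≤
      η * 1 * 1 := by gcongr
  have g2 : ‖inner ℂ h X‖ * ‖inner ℂ X Y‖ * ‖inner ℂ (G Y) h' - c⁻¹ * inner ℂ Y h'‖ ≤
      1 * 1 * η := by gcongr
  linarith

end iso

/-! ## The angle -/

theorem abs_arg_le (z : ℂ) (hz : ‖z‖ = 1) : |z.arg| ≤ 2 * ‖z - 1‖ := by
  have h1 := Complex.norm_mul_exp_arg_mul_I z
  rw [hz, Complex.ofReal_one, one_mul] at h1
  have h2 : z = Complex.exp (Complex.I * (z.arg : ℂ)) := by rw [mul_comm, h1]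
  have h3 : ‖z - 1‖ = ‖2 * Real.sin (z.arg / 2)‖ := by
    conv_lhs => rw [h2]
    exact Complex.norm_exp_I_mul_ofReal_sub_one _
  rw [h3, norm_mul, Real.norm_eq_abs, Real.norm_eq_abs, abs_of_pos (by norm_num : (0 : ℝ) < 2)]
  have h4 : |z.arg / 2| ≤ Real.pi / 2 := by
    rw [abs_div, abs_of_pos (by norm_num : (0 : ℝ) < 2)]
    have := Complex.abs_arg_le_pi z
    linarith
  have h5 := Real.mul_abs_le_abs_sin h4
  rw [abs_div, abs_of_pos (by norm_num : (0 : ℝ) < 2)] at h5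
  have h6 : |z.arg| ≤ Real.pi * |Real.sin (z.arg / 2)| := by
    have hpi := Real.pi_pos
    have h7 : 2 / Real.pi * (|z.arg| / 2) = |z.arg| / Real.pi := by field_simp
    rw [h7, div_le_iff₀ hpi] at h5
    linarith
  have h8 : Real.pi * |Real.sin (z.arg / 2)| ≤ 4 * |Real.sin (z.arg / 2)| :=
    mul_le_mul_of_nonneg_right Real.pi_le_four (abs_nonneg _)
  linarith

/-! ## Sums -/

section sums

open Classical in
theorem sum_ex {J : Type} [Fintype J] (w : J → J → ℝ) (hw : ∀ i k, 0 ≤ w i k)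
    (s : Finset ℕ) (P : ℕ → J → J → Prop) (Z : J → J → Prop)
    (hZ : ∀ i k, Z i k ↔ ∃ q, q ∈ s ∧ P q i k) :
    ∑ i, ∑ k, (if Z i k then w i k else 0) ≤
      ∑ q ∈ s, ∑ i, ∑ k, (if P q i k then w i k else 0) := by
  have h1 : ∑ q ∈ s, ∑ i, ∑ k, (if P q i k then w i k else 0) =
      ∑ i, ∑ k, ∑ q ∈ s, (if P q i k then w i k else 0) := by
    rw [Finset.sum_comm]
    exact Finset.sum_congr rfl fun i _ => Finset.sum_comm
  rw [h1]
  refine Finset.sum_le_sum fun i _ => Finset.sum_le_sum fun k _ => ?_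
  have h0 : ∀ q ∈ s, 0 ≤ (if P q i k then w i k else 0) := by
    intro q _
    split_ifs
    · exact hw i k
    · exact le_rfl
  by_cases h : Z i k
  · rw [if_pos h]
    obtain ⟨q, hq, hP⟩ := (hZ i k).1 h
    refine le_trans (le_of_eq ?_) (Finset.single_le_sum h0 hq)
    rw [if_pos hP]
  · rw [if_neg h]
    exact Finset.sum_nonneg h0

open Classical in
theorem sum_or {J : Type} [Fintype J] (w : J → J → ℝ) (hw : ∀ i k, 0 ≤ w i k)
    (Z A B : J → J → Prop) (hZ : ∀ i k, Z i k ↔ A i k ∨ B i k) :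
    ∑ i, ∑ k, (if Z i k then w i k else 0) ≤
      ∑ i, ∑ k, (if A i k then w i k else 0) + ∑ i, ∑ k, (if B i k then w i k else 0) := by
  rw [← Finset.sum_add_distrib]
  refine Finset.sum_le_sum fun i _ => ?_
  rw [← Finset.sum_add_distrib]
  refine Finset.sum_le_sum fun k _ => ?_
  have := hw i k
  by_cases hA : A i k
  · rw [if_pos ((hZ i k).2 (Or.inl hA)), if_pos hA]
    split_ifs <;> linarith
  · by_cases hB : B i k
    · rw [if_pos ((hZ i k).2 (Or.inr hB)), if_pos hB, if_neg hA, zero_add]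
    · rw [if_neg fun h => not_or.2 ⟨hA, hB⟩ ((hZ i k).1 h), if_neg hA, if_neg hB, zero_add]

end sums

/-! ## Constants -/

theorem small (c d : ℝ) (hd : 0 < d) : ∀ᶠ ε in nhdsWithin (0 : ℝ) (Set.Ioi 0), c * ε ≤ d := by
  have h1 : Filter.Tendsto (fun ε : ℝ => c * ε) (nhds 0) (nhds 0) := by
    have h2 : Continuous fun ε : ℝ => c * ε := by fun_prop
    have h3 := h2.tendsto 0
    rw [mul_zero] at h3
    exact h3
  exact ((h1.eventually_lt_const hd).filter_mono nhdsWithin_le_nhds).mono fun _ h => h.le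

theorem exists_eps (c1 c2 c3 c4 c5 c6 d1 d2 d3 d4 d5 d6 : ℝ) (h1 : 0 < d1) (h2 : 0 < d2)
    (h3 : 0 < d3) (h4 : 0 < d4) (h5 : 0 < d5) (h6 : 0 < d6) : ∃ ε : ℝ, 0 < ε ∧ c1 * ε ≤ d1 ∧
    c2 * ε ≤ d2 ∧ c3 * ε ≤ d3 ∧ c4 * ε ≤ d4 ∧ c5 * ε ≤ d5 ∧ c6 * ε ≤ d6 := by
  have h7 : ∀ᶠ ε in nhdsWithin (0 : ℝ) (Set.Ioi 0), 0 < ε :=
    eventually_mem_nhdsWithin
  obtain ⟨ε, e⟩ := ((small c1 d1 h1).and ((small c2 d2 h2).and ((small c3 d3 h3).and
    ((small c4 d4 h4).and ((small c5 d5 h5).and ((small c6 d6 h6).and h7)))))).exists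
  exact ⟨ε, e.2.2.2.2.2.2, e.1, e.2.1, e.2.2.1, e.2.2.2.1, e.2.2.2.2.1, e.2.2.2.2.2.1⟩

end

end Pool.Agent.H4.FA
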