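import Pool.Agent.H30.FA.TC
import Pool.Agent.H4.FA.STEa

/-!
# SCT: a nowhere vanishing equivariant function and the phase cochains
-/

set_option autoImplicit false

open Pool.Agent.H59 Pool.Agent.H48.FR Pool.Agent.H58.FL Pool.Agent.H30.FA

namespace Pool.Agent.H4.FA

noncomputable section

theorem ph_mul (z w : ℂ) : ph (z * w) = ph z * ph w := by
  unfold ph
  rw [norm_mul]
  push_cast
  rw [mul_div_mul_comm]

theorem ph_conj (z : ℂ) : ph ((starRingEnd ℂ) z) = (starRingEnd ℂ) (ph z) := by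
  unfold ph
  rw [map_div₀, RCLike.norm_conj, Complex.conj_ofReal]

theorem norm_ph {z : ℂ} (hz : z ≠ 0) : ‖ph z‖ = 1 := by
  unfold ph
  rw [norm_div, Complex.norm_real, norm_norm, div_self (norm_ne_zero_iff.2 hz)]

theorem ph_ne {z : ℂ} (hz : z ≠ 0) : ph z ≠ 0 := by
  intro h
  have h1 := norm_ph hz
  rw [h, norm_zero] at h1
  exact zero_ne_one h1

theorem conj_unit {u : ℂ} (hu : ‖u‖ = 1) : (starRingEnd ℂ) u = u⁻¹ := by
  apply eq_inv_of_mul_eq_one_right
  rw [Complex.mul_conj', hu]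
  norm_num

theorem ph_of_unit {u : ℂ} (hu : ‖u‖ = 1) : ph u = u := by
  unfold ph
  rw [hu, Complex.ofReal_one, div_one]

theorem exp_arg {z : ℂ} (hz : z ≠ 0) : Complex.exp (Complex.I * z.arg) = ph z := by
  unfold ph
  have h1 := Complex.norm_mul_exp_arg_mul_I z
  have h2 : ((‖z‖ : ℝ) : ℂ) ≠ 0 := Complex.ofReal_ne_zero.2 (norm_ne_zero_iff.2 hz)
  rw [eq_div_iff h2, mul_comm, mul_comm Complex.I]
  exact h1

/-- the argument of a number near a given one -/
theorem arg_near {a v : ℂ} {c s : ℝ} (hc : 0 < c) (hv : c ≤ ‖v‖) (h : ‖a - v‖ ≤ s)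
    (hs : s ≤ c / 64) : |(a * (starRingEnd ℂ) v).arg| ≤ 1 / 8 := by
  have hv0 : 0 < ‖v‖ := lt_of_lt_of_le hc hv
  have hvn : v ≠ 0 := norm_ne_zero_iff.1 hv0.ne'
  have ha : a ≠ 0 := by
    rintro rfl
    rw [zero_sub, norm_neg] at h
    linarith
  have hz : a * (starRingEnd ℂ) v ≠ 0 := mul_ne_zero ha ((map_ne_zero _).2 hvn)
  -- the phase
  have h1 : ‖ph (a * (starRingEnd ℂ) v) - 1‖ ≤ 1 / 16 := by
    have h2 : ph (a * (starRingEnd ℂ) v) - 1 = (ph a - ph v) * (ph v)⁻¹ := by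
      rw [ph_mul, ph_conj, conj_unit (norm_ph hvn), sub_mul, mul_inv_cancel₀ (ph_ne hvn)]
    have h3 : ph a - ph v = (a - v) / ((‖v‖ : ℝ) : ℂ) + (((‖v‖ - ‖a‖ : ℝ) : ℂ)) *
        (ph a / ((‖v‖ : ℝ) : ℂ)) := by
      unfold ph
      have e1 : ((‖v‖ : ℝ) : ℂ) ≠ 0 := Complex.ofReal_ne_zero.2 hv0.ne'
      have e2 : ((‖a‖ : ℝ) : ℂ) ≠ 0 := Complex.ofReal_ne_zero.2 (norm_ne_zero_iff.2 ha)
      push_cast
      field_simp
      ring
    rw [h2, norm_mul, norm_inv, norm_ph hvn, inv_one, mul_one, h3]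
    refine (norm_add_le _ _).trans ?_
    rw [norm_mul, norm_div, norm_div, norm_ph ha, Complex.norm_real, Complex.norm_real,
      norm_norm]
    have h4 : ‖‖v‖ - ‖a‖‖ ≤ ‖a - v‖ := by
      rw [norm_sub_rev a v]
      exact abs_norm_sub_norm_le v a
    have h5 : ‖a - v‖ / ‖v‖ ≤ 1 / 64 := by
      rw [div_le_iff₀ hv0]
      linarith
    have h6 : ‖‖v‖ - ‖a‖‖ * (1 / ‖v‖) ≤ ‖a - v‖ / ‖v‖ := by
      rw [mul_one_div]
      exact div_le_div_of_nonneg_right h4 hv0.le
    linarith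
  have h2 : (a * (starRingEnd ℂ) v).arg = (ph (a * (starRingEnd ℂ) v)).arg := by
    unfold ph
    rw [div_eq_mul_inv, ← Complex.ofReal_inv, mul_comm (a * (starRingEnd ℂ) v)]
    exact (Complex.arg_real_mul _ (inv_pos.2 (norm_pos_iff.2 hz))).symm
  rw [h2]
  have h3 := abs_arg_le _ (norm_ph hz)
  linarith

/-- small angles with the same exponential are equal -/
theorem angle_eq {a b : ℝ} (ha : |a| ≤ 1) (hb : |b| ≤ 1)
    (h : Complex.exp (Complex.I * a) = Complex.exp (Complex.I * b)) : a = b := by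
  obtain ⟨n, hn⟩ := Complex.exp_eq_exp_iff_exists_int.1 h
  have h1 : (a : ℂ) = ((b + n * (2 * Real.pi) : ℝ) : ℂ) := by
    have h2 : Complex.I * (a : ℂ) = Complex.I * ((b + n * (2 * Real.pi) : ℝ) : ℂ) := by
      rw [hn]
      push_cast
      ring
    exact mul_left_cancel₀ Complex.I_ne_zero h2
  have h2 : a = b + n * (2 * Real.pi) := by exact_mod_cast h1
  have hpi := Real.pi_gt_three
  have h3 : n = 0 := by
    by_contra hne
    have h4 : (1 : ℝ) ≤ |(n : ℝ)| := by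
      rw [← Int.cast_abs]
      exact_mod_cast Int.one_le_abs hne
    have h5 : |(n : ℝ) * (2 * Real.pi)| ≤ 2 := by
      have h6 : (n : ℝ) * (2 * Real.pi) = a - b := by linarith
      rw [h6]
      exact (abs_sub _ _).trans (by linarith)
    rw [abs_mul, abs_of_pos (by linarith : (0 : ℝ) < 2 * Real.pi)] at h5
    nlinarith
  rw [h2, h3]
  simp

section core

variable {E : Type} [NormedAddCommGroup E] [InnerProductSpace ℂ E]

/-- the exponential of the phase of a triangle -/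
theorem exp_ar {a b c : E} (hab : inner ℂ a b ≠ 0) (hbc : inner ℂ b c ≠ 0)
    (hac : inner ℂ a c ≠ 0) : Complex.exp (Complex.I * (ar a b c : ℝ)) =
      ph (inner ℂ a b) * ph (inner ℂ b c) * (ph (inner ℂ a c))⁻¹ := by
  have hca : inner ℂ c a ≠ 0 := by
    rw [← inner_conj_symm]
    exact (map_ne_zero _).2 hac
  unfold ar
  rw [exp_arg (mul_ne_zero (mul_ne_zero hab hbc) hca), ph_mul, ph_mul, ← inner_conj_symm c a,
    ph_conj, conj_unit (norm_ph hac)]

end core

theorem pf_SCT (hSPH : T_SPH) : T_SCT := by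
  intro w c hc
  obtain ⟨s', hs', hsph⟩ := hSPH (1 / (8 * (|(w : ℝ)| + 1))) (by positivity)
  obtain ⟨s, hs⟩ : ∃ s : ℝ, s = min s' (min (c / 64) (1 / 2)) := ⟨_, rfl⟩
  have hss' : s ≤ s' := by rw [hs]; exact min_le_left _ _
  have hsc : s ≤ c / 64 := by rw [hs]; exact (min_le_right _ _).trans (min_le_left _ _)
  have hs2 : s ≤ 1 / 2 := by rw [hs]; exact (min_le_right _ _).trans (min_le_right _ _)
  refine ⟨s, by rw [hs]; positivity, ?_⟩
  intro X E _ _ f f' σ hf hf'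
  obtain ⟨R, hR⟩ : ∃ R : X → X → ℂ, R = fun x y => ph (inner ℂ (f' x) (f' y)) *
    (starRingEnd ℂ) (ph (inner ℂ (f x) (f y))) := ⟨_, rfl⟩
  refine ⟨fun x y => (σ y * (starRingEnd ℂ) (R x y ^ w * σ x)).arg / (2 * Real.pi), ?_⟩
  intro S hS x hx y hy z hz
  have hpi := Real.pi_pos
  have hne : ∀ a ∈ S, ∀ b ∈ S, inner ℂ (f a) (f b) ≠ 0 ∧ inner ℂ (f' a) (f' b) ≠ 0 := by
    intro a ha b hb
    obtain ⟨h1, h2, -, -⟩ := hS a ha b hb
    constructor
    · intro h3
      rw [h3, norm_zero] at h1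
      norm_num at h1
      linarith
    · intro h3
      rw [h3, norm_zero] at h2
      norm_num at h2
      linarith
  have hσ : ∀ a ∈ S, σ a ≠ 0 := by
    intro a ha
    have h1 := (hS a ha a ha).2.2.1
    intro h2
    rw [h2, norm_zero] at h1
    linarith
  have hRu : ∀ a ∈ S, ∀ b ∈ S, ‖R a b‖ = 1 := by
    intro a ha b hb
    obtain ⟨h1, h2⟩ := hne a ha b hb
    rw [hR]
    simp only
    rw [norm_mul, RCLike.norm_conj, norm_ph h1, norm_ph h2, mul_one]
  have hRe : ∀ a ∈ S, ∀ b ∈ S, R a b = ph (inner ℂ (f' a) (f' b)) *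
      (ph (inner ℂ (f a) (f b)))⁻¹ := by
    intro a ha b hb
    obtain ⟨h1, h2⟩ := hne a ha b hb
    rw [hR]
    simp only
    rw [conj_unit (norm_ph h1)]
  -- the small angles
  have hsmall : ∀ a ∈ S, ∀ b ∈ S,
      |(σ b * (starRingEnd ℂ) (R a b ^ w * σ a)).arg| ≤ 1 / 8 := by
    intro a ha b hb
    obtain ⟨-, -, h3, h4⟩ := hS a ha b hb
    apply arg_near (s := s) hc _ _ hsc
    · rw [norm_mul, norm_zpow, hRu a ha b hb, one_zpow, one_mul]
      exact h3
    · rw [hR]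
      exact h4
  have hexpE : ∀ a ∈ S, ∀ b ∈ S,
      Complex.exp (Complex.I * ((σ b * (starRingEnd ℂ) (R a b ^ w * σ a)).arg : ℝ)) =
      ph (σ b) * ((R a b ^ w)⁻¹ * (ph (σ a))⁻¹) := by
    intro a ha b hb
    have h1 : ‖R a b ^ w‖ = 1 := by rw [norm_zpow, hRu a ha b hb, one_zpow]
    have h2 : R a b ^ w ≠ 0 := by
      intro h3
      rw [h3, norm_zero] at h1
      exact zero_ne_one h1
    rw [exp_arg (mul_ne_zero (hσ b hb) ((map_ne_zero _).2 (mul_ne_zero h2 (hσ a ha)))), ph_mul,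
      ph_conj, ph_mul, map_mul, ph_of_unit h1, conj_unit h1, conj_unit (norm_ph (hσ a ha))]
  -- the phases of the triangles
  have har : ∀ (F : X → E), (∀ a, ‖F a‖ = 1) →
      (∀ a ∈ S, ∀ b ∈ S, 1 - s ≤ ‖inner ℂ (F a) (F b)‖ ^ 2) →
      |ar (F x) (F y) (F z)| ≤ 1 / (8 * (|(w : ℝ)| + 1)) := by
    intro F hF h
    apply hsph E (F x) (F y) (F z) (hF x) (hF y) (hF z)
    · linarith [h x hx y hy]
    · linarith [h y hy z hz]
    · linarith [h z hz x hx]
  have ha1 := har f hf fun a ha b hb => (hS a ha b hb).1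
  have ha2 := har f' hf' fun a ha b hb => (hS a ha b hb).2.1
  have hkey : (w : ℝ) * (ar (f x) (f y) (f z) - ar (f' x) (f' y) (f' z)) =
      (σ z * (starRingEnd ℂ) (R y z ^ w * σ y)).arg -
        (σ z * (starRingEnd ℂ) (R x z ^ w * σ x)).arg +
        (σ y * (starRingEnd ℂ) (R x y ^ w * σ x)).arg := by
    apply angle_eq
    · rw [abs_mul]
      have h1 : |ar (f x) (f y) (f z) - ar (f' x) (f' y) (f' z)| ≤
          2 * (1 / (8 * (|(w : ℝ)| + 1))) := (abs_sub _ _).trans (by linarith)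
      have h2 : |(w : ℝ)| * (2 * (1 / (8 * (|(w : ℝ)| + 1)))) ≤ 1 := by
        have h3 : |(w : ℝ)| * (2 * (1 / (8 * (|(w : ℝ)| + 1)))) =
            |(w : ℝ)| / (4 * (|(w : ℝ)| + 1)) := by
          field_simp
          ring
        rw [h3, div_le_one (by positivity)]
        have := abs_nonneg (w : ℝ)
        linarith
      exact (mul_le_mul_of_nonneg_left h1 (abs_nonneg _)).trans h2
    · have h1 := hsmall y hy z hz
      have h2 := hsmall x hx z hz
      have h3 := hsmall x hx y hy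
      refine (abs_add_le _ _).trans ?_
      have h4 := abs_sub ((σ z * (starRingEnd ℂ) (R y z ^ w * σ y)).arg)
        ((σ z * (starRingEnd ℂ) (R x z ^ w * σ x)).arg)
      linarith
    · obtain ⟨n1, n1'⟩ := hne x hx y hy
      obtain ⟨n2, n2'⟩ := hne y hy z hz
      obtain ⟨n3, n3'⟩ := hne x hx z hz
      have e1 : Complex.I * (((w : ℝ) * (ar (f x) (f y) (f z) - ar (f' x) (f' y) (f' z)) : ℝ) : ℂ) =
          (w : ℂ) * (Complex.I * (ar (f x) (f y) (f z) : ℝ) -
            Complex.I * (ar (f' x) (f' y) (f' z) : ℝ)) := by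
        push_cast
        ring
      have e2 : Complex.I * (((σ z * (starRingEnd ℂ) (R y z ^ w * σ y)).arg -
          (σ z * (starRingEnd ℂ) (R x z ^ w * σ x)).arg +
          (σ y * (starRingEnd ℂ) (R x y ^ w * σ x)).arg : ℝ) : ℂ) =
          Complex.I * ((σ z * (starRingEnd ℂ) (R y z ^ w * σ y)).arg : ℝ) -
          Complex.I * ((σ z * (starRingEnd ℂ) (R x z ^ w * σ x)).arg : ℝ) +
          Complex.I * ((σ y * (starRingEnd ℂ) (R x y ^ w * σ x)).arg : ℝ) := by
        push_cast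
        ring
      rw [e1, e2, Complex.exp_int_mul, Complex.exp_sub, Complex.exp_add, Complex.exp_sub,
        hexpE y hy z hz, hexpE x hx z hz, hexpE x hx y hy, exp_ar n1 n2 n3, exp_ar n1' n2' n3']
      have r1 := hRe x hx y hy
      have r2 := hRe y hy z hz
      have r3 := hRe x hx z hz
      have q1 := ph_ne (hσ x hx)
      have q2 := ph_ne (hσ y hy)
      have q3 := ph_ne (hσ z hz)
      have m1 := ph_ne n1
      have m2 := ph_ne n2
      have m3 := ph_ne n3
      have m1' := ph_ne n1'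
      have m2' := ph_ne n2'
      have m3' := ph_ne n3'
      have t1 : ph (σ z) * ((R y z ^ w)⁻¹ * (ph (σ y))⁻¹) /
          (ph (σ z) * ((R x z ^ w)⁻¹ * (ph (σ x))⁻¹)) *
          (ph (σ y) * ((R x y ^ w)⁻¹ * (ph (σ x))⁻¹)) =
          (R x z * (R y z)⁻¹ * (R x y)⁻¹) ^ w := by
        rw [mul_zpow, mul_zpow, inv_zpow, inv_zpow]
        have k1 : R x z ^ w ≠ 0 :=
          zpow_ne_zero _ (by rw [r3]; exact mul_ne_zero m3' (inv_ne_zero m3))
        have k2 : R y z ^ w ≠ 0 :=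
          zpow_ne_zero _ (by rw [r2]; exact mul_ne_zero m2' (inv_ne_zero m2))
        have k3 : R x y ^ w ≠ 0 :=
          zpow_ne_zero _ (by rw [r1]; exact mul_ne_zero m1' (inv_ne_zero m1))
        field_simp
      rw [t1, r1, r2, r3]
      congr 1
      field_simp
  have hfin : w * (up f x y z - up f' x y z) =
      (w : ℝ) * (ar (f x) (f y) (f z) - ar (f' x) (f' y) (f' z)) / (2 * Real.pi) := by
    unfold up
    ring
  rw [hfin, hkey]
  unfold d1
  ring

end

end Pool.Agent.H4.FA
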