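import Pool.Agent.H4.FA.STEa

/-!
# STE: the main step
-/

set_option autoImplicit false

open Pool.Agent.H30.FA

namespace Pool.Agent.H4.FA

noncomputable section

open Classical in
theorem pf_STE (hBAS : T_BAS) (hPDK : T_PDK) (hREC : T_REC) (hIRR : T_IRR) (hTOP : T_TOP)
    (hSEL : T_SEL) (hRED : T_RED) (hOVL : T_OVL) (hLOW2 : T_LOW2) (hMID : T_MID)
    (hDSP : T_DSP) : T_STE := by
  intro κ κ₂ hκ2 hκ
  by_cases hκ1 : κ ≤ 1
  swap
  · refine ⟨1, one_pos, fun δ hδ _ => ⟨δ / 2, 0, 1, by linarith, by linarith, one_pos, ?_⟩⟩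
    intro J E _ _ _ d C a₀ a₁ g _ _ _
    exact absurd (hBAS κ J E d C).2.2.2.2.1 hκ1
  -- the constants
  obtain ⟨kr, hkr⟩ : ∃ kr : ℝ, kr = 1 / 4 + (κ₂ - 1 / 4) / 2 := ⟨_, rfl⟩
  obtain ⟨k0, hk0⟩ : ∃ k0 : ℝ, k0 = 1 / 4 + (κ₂ - 1 / 4) / 4 := ⟨_, rfl⟩
  obtain ⟨p, hp⟩ : ∃ p : ℝ, p = (κ₂ - 1 / 4) / 2 := ⟨_, rfl⟩
  have hk0q : 1 / 4 < k0 := by rw [hk0]; linarith
  have hk0kr : k0 < kr := by rw [hk0, hkr]; linarith
  have hkrκ : kr < κ₂ := by rw [hkr]; linarith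
  have hpe : p = κ₂ - kr := by rw [hp, hkr]; ring
  have hp0 : 0 < p := by rw [hp]; linarith
  have hk01 : k0 < 1 := by linarith
  obtain ⟨s, hs0, hs1, htop⟩ := hTOP k0 hk0q
  obtain ⟨s2, hs2⟩ : ∃ s2 : ℝ, s2 = s / 8 := ⟨_, rfl⟩
  have hs20 : 0 < s2 := by rw [hs2]; linarith
  refine ⟨s2 ^ 2 * p ^ 4 / 16, by positivity, fun δ hδ0 hδ1 => ?_⟩
  obtain ⟨s1, hs1d⟩ : ∃ s1 : ℝ, s1 = δ * s / 8 := ⟨_, rfl⟩
  have hs10 : 0 < s1 := by rw [hs1d]; positivity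
  have hs1s : s1 ≤ s / 8 := by
    rw [hs1d]
    have : δ * s ≤ 1 * s := mul_le_mul_of_nonneg_right (by linarith) hs0.le
    linarith
  obtain ⟨Q, ε1, hε1, hrec⟩ := hREC δ s1 hδ0 hs10
  obtain ⟨τ, hτ, hirr⟩ := hIRR Q
  obtain ⟨K, hK⟩ := exists_nat_gt (60 / τ)
  have hKτ : 60 < K * τ := by rwa [div_lt_iff₀ hτ] at hK
  have hK0 : (0 : ℝ) ≤ K := Nat.cast_nonneg K
  have hQ0 : (0 : ℝ) ≤ Q := Nat.cast_nonneg Q
  obtain ⟨δ', hδ'⟩ : ∃ δ' : ℝ, δ' = min (δ / 2) (s2 ^ 2 * p ^ 4 / (64 * (K + 1))) := ⟨_, rfl⟩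
  have hδ'0 : 0 < δ' := by
    rw [hδ']
    exact lt_min (by linarith) (by positivity)
  have hδ'1 : δ' ≤ δ / 2 := by rw [hδ']; exact min_le_left _ _
  have hδ'2 : δ' ≤ s2 ^ 2 * p ^ 4 / (64 * (K + 1)) := by rw [hδ']; exact min_le_right _ _
  obtain ⟨ρ, hρ⟩ : ∃ ρ : ℝ, ρ = (1 - κ) / (1 - k0) := ⟨_, rfl⟩
  have h1k0 : 0 < 1 - k0 := by linarith
  have hρ0 : 0 ≤ ρ := by rw [hρ]; exact div_nonneg (by linarith) h1k0.le
  have hρ1 : ρ < 1 := by rw [hρ, div_lt_one h1k0]; linarith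
  obtain ⟨n, hn⟩ := exists_pow_lt_of_lt_one
    (show 0 < p ^ 4 / (32 * ((K : ℝ) + 1)) by positivity) hρ1
  obtain ⟨D, hDd⟩ : ∃ D : ℕ, D = n + 1 := ⟨_, rfl⟩
  have hD1 : 1 ≤ D := by omega
  have hDρ : ((K : ℝ) + 1) * ((1 - κ) ^ D / (1 - k0) ^ D) ≤ p ^ 4 / 32 := by
    rw [← div_pow, ← hρ, hDd]
    have h1 : ρ ^ (n + 1) ≤ p ^ 4 / (32 * ((K : ℝ) + 1)) :=
      (pow_le_pow_of_le_one hρ0 hρ1.le (Nat.le_succ n)).trans hn.le
    calc ((K : ℝ) + 1) * ρ ^ (n + 1) ≤ ((K : ℝ) + 1) * (p ^ 4 / (32 * ((K : ℝ) + 1))) :=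
          mul_le_mul_of_nonneg_left h1 (by linarith)
      _ = _ := by field_simp
  have hsq : 0 < Real.sqrt kr - Real.sqrt k0 := by
    have := Real.sqrt_lt_sqrt (by linarith) hk0kr
    linarith
  obtain ⟨ε, hε0, e1, e2, e3, e4, e5, e6⟩ := exists_eps 1
    (((K : ℝ) + 1) * (2 ^ D * (Q * K) ^ 2 / (1 - k0) ^ D)) (2 * Q * K) (2 * Q) (Q * K) Q ε1
    (p ^ 4 / 32) 1 s (Real.sqrt kr - Real.sqrt k0) (s / 8) hε1 (by positivity) one_pos hs0 hsq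
    (by linarith)
  rw [one_mul] at e1
  refine ⟨δ', D, ε, hδ'0, by linarith, hε0, ?_⟩
  intro J E _ _ _ d C a₀ a₁ g h0 h1 hSy
  by_contra hmid
  push Not at hmid
  obtain ⟨hb1, hb2, hb3, hb4, hb5, -, -, -, -, -, -⟩ := hBAS κ J E d C
  obtain ⟨m, hm1, hmQ, hfix⟩ := hrec κ J E d C g (by linarith [hSy.2.2 1 hD1])
  obtain ⟨G, hG⟩ : ∃ G : E ≃ₗᵢ[ℂ] E, G = g ^ m := ⟨_, rfl⟩
  have hGq : ∀ q, G ^ q = g ^ (m * q) := fun q => by rw [hG, pow_mul]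
  rw [← hG] at hfix
  have hea : ∀ a, ‖C.e a‖ = 1 := fun a => C.e.orthonormal.1 a
  have hmQ' : (m : ℝ) ≤ Q := by exact_mod_cast hmQ
  have hI1 : ‖Complex.exp Complex.I‖ = 1 := by
    rw [Complex.norm_exp, Complex.I_re, Real.exp_zero]
  -- powers of `g` at the two axes
  have hp0' : ∀ q : ℕ, ‖(g ^ q) (C.e a₀) - (1 : ℂ) ^ q • C.e a₀‖ ≤ q * ε := fun q =>
    pow_turn g (by simp) (by rw [one_smul]; exact hSy.1) q
  have hp1' : ∀ q : ℕ, ‖(g ^ q) (C.e a₁) - Complex.exp Complex.I ^ q • C.e a₁‖ ≤ q * ε := fun q =>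
    pow_turn g hI1 hSy.2.1 q
  have hmq : ∀ q, q ≤ K → ((m * q : ℕ) : ℝ) * ε ≤ Real.sqrt kr - Real.sqrt k0 := by
    intro q hq
    refine le_trans ?_ e5
    have h2 : ((m * q : ℕ) : ℝ) ≤ Q * K := by
      push_cast
      exact mul_le_mul hmQ' (by exact_mod_cast hq) (Nat.cast_nonneg _) hQ0
    exact mul_le_mul_of_nonneg_right h2 hε0.le
  have hmε : (m : ℝ) * ε ≤ Q * ε := mul_le_mul_of_nonneg_right hmQ' hε0.le
  -- the angle
  obtain ⟨θ, hθ⟩ : ∃ θ : ℝ, θ = (Complex.exp (-(m : ℂ) * Complex.I)).arg := ⟨_, rfl⟩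
  have hcm : ‖Complex.exp (-(m : ℂ) * Complex.I)‖ = 1 := by
    have h2 : -(m : ℂ) * Complex.I = ((-(m : ℝ) : ℝ) : ℂ) * Complex.I := by push_cast; ring
    rw [h2, Complex.norm_exp_ofReal_mul_I]
  have hexp : Complex.exp (θ * Complex.I) = Complex.exp (-(m : ℂ) * Complex.I) := by
    have h2 := Complex.norm_mul_exp_arg_mul_I (Complex.exp (-(m : ℂ) * Complex.I))
    rw [hcm, Complex.ofReal_one, one_mul, ← hθ] at h2
    exact h2
  have hτθ := hirr m hm1 hmQ θ hexp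
  have hexpm : Complex.exp Complex.I ^ m = Complex.exp ((m : ℂ) * Complex.I) := by
    rw [Complex.exp_nat_mul]
  have hinv : (Complex.exp Complex.I ^ m)⁻¹ = Complex.exp (-(m : ℂ) * Complex.I) := by
    rw [hexpm, ← Complex.exp_neg, neg_mul]
  have hcm' : ‖Complex.exp Complex.I ^ m‖ = 1 := by rw [norm_pow, hI1, one_pow]
  have hδ14 : ∀ a, κ₂ ≤ C.r a → δ ≤ C.r a := fun a ha => by linarith
  have hG0 := hfix a₀ (hδ14 a₀ h0)
  have hG1 := hfix a₁ (hδ14 a₁ h1)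
  have hG0' : ‖G (C.e a₀) - C.e a₀‖ ≤ Q * ε := by
    have h2 := hp0' m
    rw [one_pow, one_smul, ← hG] at h2
    exact h2.trans hmε
  have hG1' : ‖G (C.e a₁) - Complex.exp Complex.I ^ m • C.e a₁‖ ≤ Q * ε := by
    have h2 := hp1' m
    rw [← hG] at h2
    exact h2.trans hmε
  have hθ1 : |θ| ≤ 1 := by
    rw [hθ]
    refine (abs_arg_le _ hcm).trans ?_
    have h2 : ‖Complex.exp (-(m : ℂ) * Complex.I) - 1‖ =
        ‖Complex.exp Complex.I ^ m • C.e a₁ - C.e a₁‖ := by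
      have h3 : Complex.exp Complex.I ^ m • C.e a₁ - C.e a₁ =
          (Complex.exp Complex.I ^ m - 1) • C.e a₁ := by rw [sub_smul, one_smul]
      have h4 : Complex.exp (-(m : ℂ) * Complex.I) - 1 =
          -(Complex.exp (-(m : ℂ) * Complex.I) * (Complex.exp Complex.I ^ m - 1)) := by
        rw [mul_sub, ← hinv, inv_mul_cancel₀ (by
          intro h5
          rw [h5, norm_zero] at hcm'
          exact zero_ne_one hcm')]
        ring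
      rw [h3, norm_smul, hea, mul_one, h4, norm_neg, norm_mul, hcm, one_mul]
    rw [h2]
    have h5 : Complex.exp Complex.I ^ m • C.e a₁ - C.e a₁ =
        -(G (C.e a₁) - Complex.exp Complex.I ^ m • C.e a₁) + (G (C.e a₁) - C.e a₁) := by abel
    have h6 : ‖Complex.exp Complex.I ^ m • C.e a₁ - C.e a₁‖ ≤ Q * ε + s1 := by
      rw [h5]
      refine (norm_add_le _ _).trans ?_
      rw [norm_neg]
      exact add_le_add hG1' hG1
    linarith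
  -- the bad sets
  obtain ⟨Z1, hZ1⟩ : ∃ Z1 : ℕ → J → J → Prop, Z1 = fun q i k =>
    ‖inner ℂ ((G ^ q) (C.x i)) (C.x k)‖ ^ 2 < k0 := ⟨_, rfl⟩
  obtain ⟨Z2, hZ2⟩ : ∃ Z2 : ℕ → J → J → Prop, Z2 = fun q i k =>
    s2 < ‖pin C.e (Finset.univ.filter fun a => C.r a < δ')
      ((G ^ (q + 1)) (C.x i) - (G ^ q) (C.x i)) (C.x k)‖ := ⟨_, rfl⟩
  have hw : ∀ i k, 0 ≤ C.t i * C.t k := fun i k => mul_nonneg (C.t_nonneg i) (C.t_nonneg k)
  have hW1 : ∀ q ∈ Finset.range (K + 1), ∑ i, ∑ k, (if Z1 q i k then C.t i * C.t k else 0) ≤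
      (1 - κ) ^ D / (1 - k0) ^ D + 2 ^ D * (Q * K) ^ 2 / (1 - k0) ^ D * ε := by
    intro q hq
    have hqK : q ≤ K := by
      have := Finset.mem_range.1 hq
      omega
    have h2 := hOVL κ k0 J E d C g D ε (by linarith) hk01 hε0.le hSy.2.2 (m * q)
    refine le_trans (le_of_eq ?_) (h2.trans ?_)
    · refine Finset.sum_congr rfl fun i _ => Finset.sum_congr rfl fun k _ => ?_
      rw [hZ1]
      exact if_congr (by
        change ‖inner ℂ ((G ^ q) (C.x i)) (C.x k)‖ ^ 2 < k0 ↔ _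
        rw [hGq]) rfl rfl
    · have h3 : ((m * q : ℕ) : ℝ) ≤ Q * K := by
        push_cast
        exact mul_le_mul hmQ' (by exact_mod_cast hqK) (Nat.cast_nonneg _) hQ0
      have h4 : ((m * q : ℕ) : ℝ) ^ 2 ≤ (Q * K : ℝ) ^ 2 :=
        pow_le_pow_left₀ (Nat.cast_nonneg _) h3 2
      have h5 : (2 : ℝ) ^ D * ((m * q : ℕ) : ℝ) ^ 2 * ε ≤ 2 ^ D * (Q * K) ^ 2 * ε := by gcongr
      rw [add_div]
      have h6 : (2 : ℝ) ^ D * ((m * q : ℕ) : ℝ) ^ 2 * ε / (1 - k0) ^ D ≤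
          2 ^ D * (Q * K) ^ 2 * ε / (1 - k0) ^ D :=
        div_le_div_of_nonneg_right h5 (by positivity)
      have h7 : 2 ^ D * (Q * K) ^ 2 * ε / (1 - k0) ^ D =
          2 ^ D * (Q * K) ^ 2 / (1 - k0) ^ D * ε := by ring
      rw [← h7]
      linarith
  have hW2 : ∀ q ∈ Finset.range K, ∑ i, ∑ k, (if Z2 q i k then C.t i * C.t k else 0) ≤
      4 * δ' / s2 ^ 2 := by
    intro q _
    have h2 := hLOW2 κ J E d C δ' s2 (fun i => (G ^ (q + 1)) (C.x i) - (G ^ q) (C.x i)) hδ'0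
      hs20 (fun i => by
        refine (norm_sub_le _ _).trans ?_
        rw [LinearIsometryEquiv.norm_map, LinearIsometryEquiv.norm_map, C.norm_x]
        norm_num)
    refine le_trans (le_of_eq ?_) h2
    refine Finset.sum_congr rfl fun i _ => Finset.sum_congr rfl fun k _ => ?_
    rw [hZ2]
  obtain ⟨A1, hA1⟩ : ∃ A : J → J → Prop, A = fun i k =>
    ∃ q, q ∈ Finset.range (K + 1) ∧ Z1 q i k := ⟨_, rfl⟩
  obtain ⟨A2, hA2⟩ : ∃ A : J → J → Prop, A = fun i k =>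
    ∃ q, q ∈ Finset.range K ∧ Z2 q i k := ⟨_, rfl⟩
  obtain ⟨Z, hZ⟩ : ∃ Z : J → J → Prop, Z = fun i k => A1 i k ∨ A2 i k := ⟨_, rfl⟩
  have hWZ : ∑ i, ∑ k, (if Z i k then C.t i * C.t k else 0) ≤ p ^ 4 / 8 := by
    refine (sum_or (fun i k => C.t i * C.t k) hw Z A1 A2 (fun i k => by rw [hZ])).trans ?_
    have f1 := (sum_ex (fun i k => C.t i * C.t k) hw (Finset.range (K + 1)) Z1 A1
      (fun i k => by rw [hA1])).trans (Finset.sum_le_sum hW1)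
    have f2 := (sum_ex (fun i k => C.t i * C.t k) hw (Finset.range K) Z2 A2
      (fun i k => by rw [hA2])).trans (Finset.sum_le_sum hW2)
    rw [Finset.sum_const, Finset.card_range, nsmul_eq_mul] at f1 f2
    push_cast at f1
    have f3 : ((K : ℝ) + 1) * ((1 - κ) ^ D / (1 - k0) ^ D +
        2 ^ D * (Q * K) ^ 2 / (1 - k0) ^ D * ε) ≤ p ^ 4 / 32 + p ^ 4 / 32 := by
      rw [mul_add, ← mul_assoc]
      exact add_le_add hDρ e2
    have f4 : (K : ℝ) * (4 * δ' / s2 ^ 2) ≤ p ^ 4 / 16 := by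
      have g1 : 4 * δ' / s2 ^ 2 ≤ p ^ 4 / (16 * (K + 1)) := by
        rw [div_le_iff₀ (by positivity)]
        calc 4 * δ' ≤ 4 * (s2 ^ 2 * p ^ 4 / (64 * (K + 1))) := by linarith
          _ = p ^ 4 / (16 * (K + 1)) * s2 ^ 2 := by
              field_simp
              ring
      calc (K : ℝ) * (4 * δ' / s2 ^ 2) ≤ ((K : ℝ) + 1) * (p ^ 4 / (16 * (K + 1))) :=
            mul_le_mul (by linarith) g1 (by positivity) (by linarith)
        _ = p ^ 4 / 16 := by field_simp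
    linarith
  -- the middle part
  obtain ⟨M, hM⟩ : ∃ M : J → Prop, M = fun k => s2 ^ 2 <
    ∑ a ∈ Finset.univ.filter (fun a => δ' ≤ C.r a ∧ C.r a < δ),
      ‖inner ℂ (C.e a) (C.x k)‖ ^ 2 := ⟨_, rfl⟩
  have hWM : ∑ k, (if M k then C.t k else 0) ≤ p ^ 4 / 16 := by
    have h2 := hMID κ J E d C (Finset.univ.filter fun a => δ' ≤ C.r a ∧ C.r a < δ) s2 hs20
    have h3 : ∑ a ∈ Finset.univ.filter (fun a => δ' ≤ C.r a ∧ C.r a < δ), C.r a =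
        midsum C δ' δ := by
      unfold midsum
      rw [Finset.sum_filter]
    rw [h3] at h2
    have h4 : midsum C δ' δ / s2 ^ 2 ≤ p ^ 4 / 16 := by
      rw [div_le_iff₀ (by positivity)]
      linarith
    refine le_trans (le_of_eq ?_) (h2.trans h4)
    refine Finset.sum_congr rfl fun k _ => ?_
    rw [hM]
  -- the large components
  have hWR : ∀ a, κ₂ ≤ C.r a →
      p ≤ ∑ j, (if kr ≤ ‖inner ℂ (C.e a) (C.x j)‖ ^ 2 then C.t j else 0) := by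
    intro a ha
    have h2 := hRED κ J E d C a kr (by linarith)
    refine le_trans (by linarith) (h2.trans (le_of_eq ?_))
    refine Finset.sum_congr rfl fun j _ => ?_
    exact if_congr Iff.rfl rfl rfl
  obtain ⟨i, i', j, j', ti, ti', tj, tj', Ri, Ri', Bj, Bj', Zii, Zij, Zjj, Mi, Mj⟩ :=
    hSEL J C.t (fun j => kr ≤ ‖inner ℂ (C.e a₀) (C.x j)‖ ^ 2)
      (fun j => kr ≤ ‖inner ℂ (C.e a₁) (C.x j)‖ ^ 2) M Z p (p ^ 4 / 8) (p ^ 4 / 16)
      ⟨C.t_nonneg, C.t_sum⟩ hp0.le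
      ((hWR a₀ h0).trans (le_of_eq (Finset.sum_congr rfl fun j _ =>
        if_congr Iff.rfl rfl rfl)))
      ((hWR a₁ h1).trans (le_of_eq (Finset.sum_congr rfl fun j _ =>
        if_congr Iff.rfl rfl rfl))) hWZ hWM (by
        have : 0 < p ^ 4 := by positivity
        linarith)
  -- consequences
  have hnZ1 : ∀ a b, ¬ Z a b → ∀ q, q ≤ K →
      k0 ≤ ‖inner ℂ ((G ^ q) (C.x a)) (C.x b)‖ ^ 2 := by
    intro a b hZab q hq
    by_contra hlt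
    push Not at hlt
    apply hZab
    rw [hZ]
    left
    rw [hA1]
    refine ⟨q, Finset.mem_range.2 (by omega), ?_⟩
    rw [hZ1]
    exact hlt
  have hnZ2 : ∀ a b, ¬ Z a b → ∀ q, q < K →
      ‖pin C.e (Finset.univ.filter fun a => C.r a < δ')
        ((G ^ (q + 1)) (C.x a) - (G ^ q) (C.x a)) (C.x b)‖ ≤ s2 := by
    intro a b hZab q hq
    by_contra hlt
    push Not at hlt
    apply hZab
    rw [hZ]
    right
    rw [hA2]
    refine ⟨q, Finset.mem_range.2 hq, ?_⟩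
    rw [hZ2]
    exact hlt
  have hnM : ∀ a, ¬ M a → ∑ b ∈ Finset.univ.filter (fun b => δ' ≤ C.r b ∧ C.r b < δ),
      ‖inner ℂ (C.e b) (C.x a)‖ ^ 2 ≤ s2 ^ 2 := by
    intro a hMa
    by_contra hlt
    push Not at hlt
    apply hMa
    rw [hM]
    exact hlt
  have hdsp : ∀ a b, ¬ Z a b → ¬ M b → ∀ q, q < K →
      ‖inner ℂ ((G ^ (q + 1)) (C.x a)) (C.x b) - inner ℂ ((G ^ q) (C.x a)) (C.x b)‖ ≤ s := by
    intro a b hZab hMb q hq
    have h2 := hDSP κ J E d C G δ δ' s1 s2 (C.x a) (C.x b) q hδ0 (by linarith) hs10.le hs20.le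
      (C.norm_x a) (C.norm_x b) hfix (hnM b hMb) (hnZ2 a b hZab q hq)
    refine h2.trans ?_
    have h3 : s1 / δ = s / 8 := by
      rw [hs1d]
      field_simp
    rw [h3, hs2]
    linarith
  have hGn : ∀ q a, ‖(G ^ q) (C.x a)‖ = 1 := fun q a => by
    rw [LinearIsometryEquiv.norm_map, C.norm_x]
  -- overlaps with the axes
  have haxis : ∀ (a : Fin d) (c : ℂ), ‖c‖ = 1 →
      (∀ q : ℕ, ‖(g ^ q) (C.e a) - c ^ q • C.e a‖ ≤ q * ε) → ∀ b,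
      kr ≤ ‖inner ℂ (C.e a) (C.x b)‖ ^ 2 → ∀ q, q ≤ K →
      k0 ≤ ‖inner ℂ (C.e a) ((G ^ q) (C.x b))‖ ^ 2 := by
    intro a c hc hca b hb q hq
    have h2 := ov_low (G ^ q) (c := c ^ (m * q)) (by rw [norm_pow, hc, one_pow]) (C.e a)
      (C.x b) (C.norm_x b)
    have h3 := hca (m * q)
    rw [← hGq] at h3
    have h4 : Real.sqrt kr ≤ ‖inner ℂ (C.e a) (C.x b)‖ := by
      rw [← Real.sqrt_sq (norm_nonneg (inner ℂ (C.e a) (C.x b)))]
      exact Real.sqrt_le_sqrt hb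
    have h5 := hmq q hq
    have h6 : Real.sqrt k0 ≤ ‖inner ℂ (C.e a) ((G ^ q) (C.x b))‖ := by linarith
    calc k0 = Real.sqrt k0 ^ 2 := (Real.sq_sqrt (by linarith)).symm
      _ ≤ _ := pow_le_pow_left₀ (Real.sqrt_nonneg _) h6 2
  have hov0 := haxis a₀ 1 (by simp) hp0'
  have hov1 := haxis a₁ (Complex.exp Complex.I) hI1 hp1'
  have hstep : ∀ (a : Fin d), ‖G (C.e a) - C.e a‖ ≤ s1 → ∀ b q,
      ‖inner ℂ (C.e a) ((G ^ (q + 1)) (C.x b)) - inner ℂ (C.e a) ((G ^ q) (C.x b))‖ ≤ s := by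
    intro a ha b q
    rw [pow_app]
    have h2 := ov_step G (C.e a) ((G ^ q) (C.x b)) (hGn q b)
    linarith
  have hfin := htop E K θ (2 * Q * ε) (fun q => (G ^ q) (C.x i)) (fun q => (G ^ q) (C.x j))
    (C.x i') (C.x j') (C.e a₀) (C.e a₁) hθ1 (by positivity) (by
      calc (K : ℝ) * (2 * Q * ε) = 2 * Q * K * ε := by ring
        _ ≤ 1 := e3) e4 (fun q _ => ⟨hGn q i, hGn q j⟩) (C.norm_x i') (C.norm_x j') (hea a₀)
    (hea a₁) (fun q hq => ⟨hov0 i Ri q hq, hnZ1 i i' Zii q hq, hnZ1 i j' Zij q hq, by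
      change k0 ≤ ‖inner ℂ ((G ^ q) (C.x i)) ((G ^ q) (C.x j))‖ ^ 2
      rw [LinearIsometryEquiv.inner_map_map]
      have := C.adj i j ti tj
      linarith, hnZ1 j j' Zjj q hq, hov1 j Bj q hq⟩) (by linarith) (by
      have := C.adj i' j' ti' tj'
      linarith) (by linarith) (fun q hq => ⟨hstep a₀ hG0 i q, hdsp i i' Zii Mi q hq,
      hdsp i j' Zij Mj q hq, by
      change ‖inner ℂ ((G ^ (q + 1)) (C.x i)) ((G ^ (q + 1)) (C.x j)) -
        inner ℂ ((G ^ q) (C.x i)) ((G ^ q) (C.x j))‖ ≤ s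
      rw [LinearIsometryEquiv.inner_map_map, LinearIsometryEquiv.inner_map_map, sub_self,
        norm_zero]
      exact hs0.le, hdsp j j' Zjj Mj q hq, hstep a₁ hG1 j q⟩) (fun q _ => by
      change ‖Rp (C.e a₀) (C.e a₁) ((G ^ (q + 1)) (C.x i)) ((G ^ (q + 1)) (C.x j)) -
        Complex.exp (θ * Complex.I) * Rp (C.e a₀) (C.e a₁) ((G ^ q) (C.x i))
          ((G ^ q) (C.x j))‖ ≤ 2 * Q * ε
      rw [pow_app, pow_app, hexp, ← hinv, mul_assoc]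
      exact rp_step G hcm' (hea a₀) (hea a₁) (hGn q i) (hGn q j) hG0' hG1')
  have hlast : (K : ℝ) * τ ≤ K * |θ| := mul_le_mul_of_nonneg_left hτθ hK0
  linarith

end

end Pool.Agent.H4.FA
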